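import Pool.Agent.WAR.StmtsL

/-!
# Squad WAR (MP_ff4683_nt), row MCK: the points modulo a level are cyclic modulo the 2-torsion,
for a given generator `g0` modulo the kernel of reduction (port of Helper23_WAQ/MCK.lean)
-/

set_option autoImplicit false

namespace Pool.Agent.WAR.H4

open Classical Polynomial WeierstrassCurve.Affine
open Pool.Agent.WAR

variable [Par]

section alg
variable {F : Type} [Field F] {d : F}

theorem sm_add (a : ℤ) (P Q : Pt d) : sm a (P + Q) = sm a P + sm a Q := by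
  rw [sm_def, sm_def, sm_def, zsmul_add]

theorem add_sm (a b : ℤ) (P : Pt d) : sm (a + b) P = sm a P + sm b P := by
  rw [sm_def, sm_def, sm_def, add_zsmul]

theorem mul_sm (a b : ℤ) (P : Pt d) : sm (a * b) P = sm a (sm b P) := by
  rw [sm_def, sm_def, sm_def, smul_smul]

theorem zero_sm (P : Pt d) : sm 0 P = 0 := by
  rw [sm_def, zero_smul]

theorem one_sm (P : Pt d) : sm 1 P = P := by
  rw [sm_def, one_smul]

theorem sub_sm (a b : ℤ) (P : Pt d) : sm (a - b) P = sm a P - sm b P := by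
  rw [eq_sub_iff_add_eq, ← add_sm, sub_add_cancel]

theorem sm_sub (a : ℤ) (P Q : Pt d) : sm a (P - Q) = sm a P - sm a Q := by
  rw [eq_sub_iff_add_eq, ← sm_add, sub_add_cancel]

theorem two_sm (P : Pt d) : sm 2 P = P + P := by
  have h : (2 : ℤ) = 1 + 1 := by norm_num
  rw [h, add_sm, one_sm]

theorem sm_comm (a b : ℤ) (P : Pt d) : sm a (sm b P) = sm b (sm a P) := by
  rw [← mul_sm, mul_comm, mul_sm]

theorem tor_add_self (e : F) : (tor d e : Pt d) + tor d e = 0 := by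
  unfold tor mkPt
  by_cases h : (W d).Nonsingular (e * d) 0
  · rw [dif_pos h]
    exact Point.add_self_of_Y_eq (by rw [W_negY, neg_zero])
  · rw [dif_neg h]
    exact add_zero (0 : Pt d)

theorem isT_add_self {T : Pt d} (h : IsT T) : T + T = 0 := by
  rcases h with rfl | rfl | rfl | rfl
  · exact add_zero 0
  · exact tor_add_self _
  · exact tor_add_self _
  · exact tor_add_self _

end alg

section
variable {F : Type} [NormedField F] {ϖ : ℤ}

theorem big_zero {d : F} : Big 1 (0 : Pt d) := Or.inl rfl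

theorem lev_zero {d : F} {r : ℝ} (hr : 0 < r) : Lev r (0 : Pt d) :=
  ⟨big_zero, by rw [zs_zero, norm_zero]; exact hr.le⟩

theorem q_pos (h : IsLoc F ϖ) : 0 < qn F ϖ := h.uni

theorem q_lt (h : IsLoc F ϖ) : qn F ϖ < 1 := (h.lt_one ϖ).2 dvd_rfl

theorem d_ne (h : IsLoc F ϖ) {d : F} (hd : ‖d‖ = 1 ∨ ‖d‖ = qn F ϖ) : d ≠ 0 := by
  intro h0
  rw [h0, norm_zero] at hd
  rcases hd with hd | hd
  · exact zero_ne_one hd
  · exact (q_pos h).ne hd

theorem q_le_d (h : IsLoc F ϖ) {d : F} (hd : ‖d‖ = 1 ∨ ‖d‖ = qn F ϖ) : qn F ϖ ≤ ‖d‖ := by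
  rcases hd with hd | hd
  · rw [hd]; exact (q_lt h).le
  · exact hd.ge

/-- the kernel of reduction is stable -/
theorem big_sub (zlv : ZlvStmt) (h : IsLoc F ϖ) {d : F} (hd : d ≠ 0) {P Q : Pt d} (hP : Big 1 P)
    (hQ : Big 1 Q) : Big 1 (P - Q) :=
  ((zlv F ϖ h d hd).1 (max ‖zs P‖ ‖zs Q‖) P Q ⟨hP, le_max_left _ _⟩ ⟨hQ, le_max_right _ _⟩).2.2.1

theorem big_add (zlv : ZlvStmt) (h : IsLoc F ϖ) {d : F} (hd : d ≠ 0) {P Q : Pt d} (hP : Big 1 P)
    (hQ : Big 1 Q) : Big 1 (P + Q) :=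
  ((zlv F ϖ h d hd).1 (max ‖zs P‖ ‖zs Q‖) P Q ⟨hP, le_max_left _ _⟩ ⟨hQ, le_max_right _ _⟩).1.1

theorem big_sm (zlv : ZlvStmt) (h : IsLoc F ϖ) {d : F} (hd : d ≠ 0) (a : ℤ) {P : Pt d}
    (hP : Big 1 P) : Big 1 (sm a P) :=
  ((zlv F ϖ h d hd).2.1 ‖zs P‖ a P ⟨hP, le_rfl⟩).1

/-- some multiple of every point is in the kernel of reduction -/
theorem ex_mult (cnt : CntStmt) (ram : RamStmt) (h : IsLoc F ϖ)
    {d : F} (hd : ‖d‖ = 1 ∨ ‖d‖ = qn F ϖ) (P : Pt d)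
    (hsm : ∀ (a : ℤ) (Q : Pt d), Big 1 Q → Big 1 (sm a Q)) :
    ∃ a : ℤ, a ≠ 0 ∧ Big 1 (sm a P) := by
  rcases hd with hd | hd
  · by_contra hcon
    push Not at hcon
    let f : ℕ → Pt d := fun n => sm (n : ℤ) P
    have hf : ∀ i j : ℕ, i ≠ j → ¬ Big 1 (f i - f j) := by
      intro i j hij
      show ¬ Big 1 (sm (i : ℤ) P - sm (j : ℤ) P)
      rw [← sub_sm]
      exact hcon _ (sub_ne_zero.2 (fun e => hij (Nat.cast_injective e)))
    have hinj : Function.Injective f := by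
      intro i j e
      by_contra hij
      apply hf i j hij
      rw [e, sub_self]
      exact big_zero
    have := cnt F ϖ h d hd ((Finset.range (2 * nm ϖ + 2)).image f) (by
      intro A hA B hB hAB
      obtain ⟨i, _, rfl⟩ := Finset.mem_image.1 hA
      obtain ⟨j, _, rfl⟩ := Finset.mem_image.1 hB
      exact hf i j (fun e => hAB (by rw [e])))
    rw [Finset.card_image_of_injective _ hinj, Finset.card_range] at this
    omega
  · refine ⟨2, two_ne_zero, ?_⟩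
    obtain ⟨T, hT, hb⟩ := ram F ϖ h d hd P
    have h1 := hsm 2 _ hb
    rw [sm_sub, two_sm T, isT_add_self hT, sub_zero] at h1
    exact h1

/-- the annihilator modulo the kernel of reduction -/
theorem ex_gen (zlv : ZlvStmt) (cnt : CntStmt) (ram : RamStmt) (pt2 : Pt2Stmt) (h : IsLoc F ϖ)
    {d : F} (hd : ‖d‖ = 1 ∨ ‖d‖ = qn F ϖ) (P : Pt d) :
    ∃ c : ℤ, Big 1 (sm c P) ∧ ¬ ϖ ∣ c := by
  have hd0 := d_ne h hd
  let I : Ideal ℤ :=
    { carrier := {a | Big 1 (sm a P)}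
      add_mem' := by
        intro a b ha hb
        show Big 1 (sm (a + b) P)
        rw [add_sm]
        exact big_add zlv h hd0 ha hb
      zero_mem' := by
        show Big 1 (sm 0 P)
        rw [zero_sm]
        exact big_zero
      smul_mem' := by
        intro a b hb
        show Big 1 (sm (a * b) P)
        rw [mul_sm]
        exact big_sm zlv h hd0 a hb }
  obtain ⟨c, hc⟩ := (IsPrincipalIdealRing.principal I).principal
  have hmem : ∀ a, Big 1 (sm a P) ↔ c ∣ a := by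
    intro a
    rw [← Ideal.mem_span_singleton]
    have : a ∈ I ↔ a ∈ Ideal.span {c} := by rw [hc]
    exact this
  refine ⟨c, (hmem c).2 dvd_rfl, ?_⟩
  rintro ⟨c', hc'⟩
  have h3 : Big 1 (sm c' P) := by
    refine pt2 F ϖ h d hd ϖ h.prime h.odd le_rfl _ ?_
    rw [← mul_sm, ← hc']
    exact (hmem c).2 dvd_rfl
  obtain ⟨e, he⟩ := (hmem c').1 h3
  obtain ⟨a, ha0, ha⟩ := ex_mult cnt ram h hd P (fun a Q hQ => big_sm zlv h hd0 a hQ)
  have hc0 : c ≠ 0 := by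
    rintro rfl
    exact ha0 (zero_dvd_iff.1 ((hmem a).1 ha))
  have h4 : c * (ϖ * e) = c * 1 := by
    calc c * (ϖ * e) = ϖ * (c * e) := by ring
      _ = ϖ * c' := by rw [← he]
      _ = c * 1 := by rw [← hc', mul_one]
  exact h.prime.not_isUnit (IsUnit.of_mul_eq_one _ (mul_left_cancel₀ hc0 h4))

/-- the largest point of the kernel of reduction -/
theorem ex_max (zlv : ZlvStmt) (h : IsLoc F ϖ) {d : F} (hd : ‖d‖ = 1 ∨ ‖d‖ = qn F ϖ)
    (hG : ∃ P : Pt d, Big 1 P ∧ P ≠ 0) :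
    ∃ E : Pt d, Big 1 E ∧ ∀ R : Pt d, Big 1 R → ‖zs R‖ ≤ ‖zs E‖ := by
  have hd0 := d_ne h hd
  obtain ⟨_, _, hz, _, _, _, _, hbd⟩ := zlv F ϖ h d hd0
  have hval : ∀ P : Pt d, Big 1 P → P ≠ 0 → ∃ n : ℕ, ‖zs P‖ = qn F ϖ ^ n := by
    intro P hP hP0
    obtain ⟨m, hm⟩ := h.val (zs P) (fun e => hP0 ((hz P hP).1 e))
    have hm' : ‖zs P‖ = qn F ϖ ^ m := hm
    have hb := hbd P hP0 hP
    rw [hm'] at hb
    have h1 : qn F ϖ * (qn F ϖ ^ m) ^ 2 ≤ qn F ϖ * 1 := by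
      rw [mul_one]
      exact (mul_le_mul_of_nonneg_right (q_le_d h hd) (by positivity)).trans hb
    have h2 : (qn F ϖ ^ m) ^ 2 ≤ 1 := le_of_mul_le_mul_left h1 (q_pos h)
    have h3 : qn F ϖ ^ m ≤ 1 := by
      have h4 : 0 ≤ qn F ϖ ^ m := (zpow_pos (q_pos h) m).le
      nlinarith
    have h5 : 0 ≤ m := by
      by_contra hneg
      push Not at hneg
      exact absurd h3 (not_le.2 (one_lt_zpow_of_neg₀ (q_pos h) (q_lt h) hneg))
    obtain ⟨k, rfl⟩ := Int.eq_ofNat_of_zero_le h5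
    exact ⟨k, by rw [hm']; exact zpow_natCast _ _⟩
  obtain ⟨P0, hP0, hP0'⟩ := hG
  have hex : ∃ n : ℕ, ∃ P : Pt d, Big 1 P ∧ P ≠ 0 ∧ ‖zs P‖ = qn F ϖ ^ n := by
    obtain ⟨n, hn⟩ := hval P0 hP0 hP0'
    exact ⟨n, P0, hP0, hP0', hn⟩
  obtain ⟨E, hE, hE0, hEn⟩ := Nat.find_spec hex
  refine ⟨E, hE, fun R hR => ?_⟩
  by_cases hR0 : R = 0
  · rw [hR0, zs_zero, norm_zero]
    exact norm_nonneg _
  · obtain ⟨n, hn⟩ := hval R hR hR0
    rw [hn, hEn]
    exact pow_le_pow_of_le_one (q_pos h).le (q_lt h).le (Nat.find_min' hex ⟨R, hR, hR0, hn⟩)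

end

/-- **row MCK** -/
theorem mck (zlv : ZlvStmt) (dgn : DgnStmt) (cnt : CntStmt) (ram : RamStmt) (pt2 : Pt2Stmt) :
    MckStmt := by
  intro F _ ϖ h d hd g0 ρ hρ
  have hd0 := d_ne h hd
  by_cases hG : ∃ P : Pt d, Big 1 P ∧ P ≠ 0
  · obtain ⟨E, hE, hmax⟩ := ex_max zlv h hd hG
    obtain ⟨c, hc, hcϖ⟩ := ex_gen zlv cnt ram pt2 h hd g0
    obtain ⟨hL1, hL2, _, _, _, _, hL7, _⟩ := zlv F ϖ h d hd0
    obtain ⟨k, hk⟩ := hL7 ρ hρ
    have hcop : IsCoprime (ϖ ^ k) c :=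
      ((h.prime.irreducible.coprime_iff_not_dvd).2 hcϖ).pow_left
    obtain ⟨v, b, hvb⟩ := hcop
    -- `g1 = v ϖ^k g0`
    have hg1 : sm (v * ϖ ^ k) g0 - g0 = sm (-b) (sm c g0) := by
      rw [← mul_sm, show -b * c = v * ϖ ^ k - 1 by linear_combination -hvb, sub_sm, one_sm]
    have hcg1 : Lev ρ (sm c (sm (v * ϖ ^ k) g0)) := by
      rw [sm_comm]
      exact hk _ _ hc (Dvd.intro_left v rfl)
    refine ⟨sm (v * ϖ ^ k) g0 + E, fun P hg0 => ?_⟩
    obtain ⟨a, T, hT, ha⟩ := hg0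
    have hR : Big 1 (P - sm a (sm (v * ϖ ^ k) g0 + E) - T) := by
      have e : P - sm a (sm (v * ϖ ^ k) g0 + E) - T =
          (P - sm a g0 - T) - sm a (sm (v * ϖ ^ k) g0 - g0) - sm a E := by
        rw [sm_add, sm_sub]
        abel
      rw [e]
      refine big_sub zlv h hd0 (big_sub zlv h hd0 ha ?_) (big_sm zlv h hd0 a hE)
      rw [hg1]
      exact big_sm zlv h hd0 _ (big_sm zlv h hd0 _ hc)
    obtain ⟨a', ⟨b', rfl⟩, ha'⟩ := dgn F ϖ h d hd0 E _ c ρ hE hR (hmax _ hR) hcϖ hρ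
    refine ⟨a + c * b', T, hT, ?_⟩
    have e : P - sm (a + c * b') (sm (v * ϖ ^ k) g0 + E) - T =
        (P - sm a (sm (v * ϖ ^ k) g0 + E) - T - sm (c * b') E) -
          sm b' (sm c (sm (v * ϖ ^ k) g0)) := by
      rw [add_sm, sm_add (c * b'), mul_comm c b', mul_sm b' c (sm (v * ϖ ^ k) g0)]
      abel
    rw [e]
    exact (hL1 ρ _ _ ha' (hL2 ρ b' _ hcg1)).2.2
  · push Not at hG
    refine ⟨g0, fun P hg0 => ?_⟩
    obtain ⟨a, T, hT, ha⟩ := hg0
    refine ⟨a, T, hT, ?_⟩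
    rw [hG _ ha]
    exact lev_zero hρ

end Pool.Agent.WAR.H4
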